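import Pool.Agent.W424.FR.Defs

/-!
FR-HD (helper549): deterministic part for the half-plane exploration path.
-/

set_option autoImplicit false

namespace Pool.Agent.W549.FR

open H974 H12S Finset H389NS H984P MeasureTheory Filter Topology Pool.Agent.W92.DP
open Pool.Agent.W92.DPH Pool.Agent.W424.OD Pool.Agent.W424.FR
open Pool.Agent.W462.DPL (near_box box_near sizes ctr pl_close' idx_le)
open Pool.Agent.W347.DPHUp (pos_place dist_pos up_box)

theorem cz_AE {c : ℤ × ℤ} {d k : ℕ} (h : 0 < c.2 - k) (F : Finset Edg) :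
    (↑(cz F) : Set Edg) ∩ AE c d k = ↑F ∩ AE c d k := by
  unfold AE
  ext e
  constructor
  · rintro ⟨h1, h2⟩
    exact ⟨cz_sub F h1, h2⟩
  · rintro ⟨h1, h2⟩
    refine ⟨?_, h2⟩
    rw [Finset.mem_coe, mem_cz]
    refine ⟨h1, ?_⟩
    rintro ⟨h3, h4, h5⟩
    rw [Finset.mem_coe, Finset.mem_sdiff] at h2
    have h6 := h2.1
    obtain ⟨x, y, b⟩ := e
    simp only at h3 h4 h5
    subst h3
    subst h4
    unfold blk at h6
    rw [mem_RE_true] at h6
    omega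

theorem A3v_cz {c : ℤ × ℤ} {d k : ℕ} (h : 0 < c.2 - k) (F : Finset Edg) :
    A3v c d k ↑(cz F) ↔ A3v c d k ↑F := by
  unfold A3v Pool.Agent.W424.OD.Cl
  rw [cz_AE h]

theorem dcz_AE {c : ℤ × ℤ} {d k : ℕ} (h : 0 < c.2 - k) (F : Finset Edg) :
    (dl '' (↑(cz F) : Set Edg)ᶜ) ∩ AE c d k = (dl '' (↑F : Set Edg)ᶜ) ∩ AE c d k := by
  unfold AE
  ext e
  constructor
  · rintro ⟨⟨e', h1, rfl⟩, h2⟩
    refine ⟨⟨e', ?_, rfl⟩, h2⟩
    intro h3
    apply h1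
    rw [Finset.mem_coe, mem_cz]
    refine ⟨h3, ?_⟩
    rintro ⟨h4, h5, h6⟩
    rw [Finset.mem_coe, Finset.mem_sdiff] at h2
    have h7 := h2.1
    obtain ⟨x, y, b⟩ := e'
    simp only at h4 h5 h6
    subst h4
    subst h5
    rw [dl_t] at h7
    unfold blk at h7
    rw [mem_RE_false] at h7
    omega
  · rintro ⟨⟨e', h1, rfl⟩, h2⟩
    refine ⟨⟨e', fun h3 => h1 (cz_sub F h3), rfl⟩, h2⟩

theorem A3d_cz {c : ℤ × ℤ} {d k : ℕ} (h : 0 < c.2 - k) (F : Finset Edg) :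
    A3d c d k ↑(cz F) ↔ A3d c d k ↑F := by
  unfold A3d A3v Pool.Agent.W424.OD.Cl
  rw [dcz_AE h]

/-- the centre of a ball in the upper half-plane -/
theorem im_ge {z : ℂ} {d : ℝ} (hd : 0 < d) (hball : Metric.ball z d ⊆ {w : ℂ | 0 < w.im}) :
    d ≤ z.im := by
  by_contra hcon
  push Not at hcon
  have h0 : 0 < z.im := hball (Metric.mem_ball_self hd)
  have h1 : (⟨z.re, 0⟩ : ℂ) ∈ Metric.ball z d := by
    rw [Metric.mem_ball, Complex.dist_eq]
    have h := Complex.norm_le_abs_re_add_abs_im ((⟨z.re, 0⟩ : ℂ) - z)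
    have e1 : ((⟨z.re, 0⟩ : ℂ) - z).re = 0 := by simp
    have e2 : ((⟨z.re, 0⟩ : ℂ) - z).im = -z.im := by simp
    rw [e1, e2, abs_zero, abs_neg, abs_of_pos h0] at h
    linarith
  have h2 : 0 < (⟨z.re, 0⟩ : ℂ).im := hball h1
  exact lt_irrefl _ h2

theorem place_re (σ : St) : (H984H.place σ).re = σ.1.1 + H984N.ML.qx σ.2 := by
  obtain ⟨v, q⟩ := σ
  cases q <;> simp only [H984H.place, H984N.ML.qx] <;> ring

theorem place_im (σ : St) : (H984H.place σ).im = σ.1.2 + H984N.ML.qy σ.2 := by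
  obtain ⟨v, q⟩ := σ
  cases q <;> simp only [H984H.place, H984N.ML.qy] <;> ring

theorem abs_cast_le {a : ℤ} (h : |a| ≤ 2) : |(a : ℝ)| ≤ 2 := by
  rw [← Int.cast_abs]
  exact_mod_cast h

/-- a vertex near the vertex of a state has a point near the place of the state -/
theorem pv_place {δ : ℝ} (hδ : 0 < δ) {w : Vtx} {σ : St} (h1 : |w.1 - σ.1.1| ≤ 2)
    (h2 : |w.2 - σ.1.2| ≤ 2) : dist (pv δ w) ((δ : ℂ) * H984H.place σ) ≤ 5 * δ := by
  have q1 := abs_le.1 (H984N.ML.qx_le σ.2)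
  have q2 := abs_le.1 (H984N.ML.qy_le σ.2)
  have k1 := abs_le.1 (abs_cast_le h1)
  have k2 := abs_le.1 (abs_cast_le h2)
  push_cast at k1 k2
  have e1 : |(pv δ w).re - ((δ : ℂ) * H984H.place σ).re| ≤ δ * (9 / 4) := by
    have e : (pv δ w).re - ((δ : ℂ) * H984H.place σ).re =
        δ * (((w.1 : ℝ) - σ.1.1) - H984N.ML.qx σ.2) := by
      rw [Complex.re_ofReal_mul, place_re]
      show δ * (w.1 : ℝ) - _ = _
      ring
    rw [e, abs_mul, abs_of_pos hδ]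
    refine mul_le_mul_of_nonneg_left ?_ hδ.le
    rw [abs_le]
    constructor <;> linarith [q1.1, q1.2, k1.1, k1.2]
  have e2 : |(pv δ w).im - ((δ : ℂ) * H984H.place σ).im| ≤ δ * (9 / 4) := by
    have e : (pv δ w).im - ((δ : ℂ) * H984H.place σ).im =
        δ * (((w.2 : ℝ) - σ.1.2) - H984N.ML.qy σ.2) := by
      rw [Complex.im_ofReal_mul, place_im]
      show δ * (w.2 : ℝ) - _ = _
      ring
    rw [e, abs_mul, abs_of_pos hδ]
    refine mul_le_mul_of_nonneg_left ?_ hδ.le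
    rw [abs_le]
    constructor <;> linarith [q2.1, q2.2, k2.1, k2.2]
  have := H984N.ML.dist_le_of e1 e2
  linarith

theorem ctr_add (δ : ℝ) (hδ : 0 < δ) (z : ℂ) :
    ctr δ (z + (δ : ℂ) * Complex.I) = (⌊z.re / δ⌋, ⌊z.im / δ⌋) := by
  unfold Pool.Agent.W462.DPL.ctr
  have e1 : (z + (δ : ℂ) * Complex.I).im / δ = z.im / δ + 1 := by
    simp
    field_simp
  have e2 : (z + (δ : ℂ) * Complex.I).re / δ = z.re / δ := by
    simp
  rw [e1, e2, Int.floor_add_one]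
  simp

/-- a vertex with point near `z` is in the box -/
theorem pv_near {δ s : ℝ} (hδ : 0 < δ) {z : ℂ} {x : Vtx} {m : ℕ}
    (h : dist (pv δ x) z ≤ s) (hm : s / δ + 1 ≤ m) :
    x ∈ Bd (⌊z.re / δ⌋, ⌊z.im / δ⌋) m := by
  have h1 := (H984N.ML.le_dist_re (pv δ x) z).trans h
  have h2 := (H984N.ML.le_dist_im (pv δ x) z).trans h
  have a1 := Int.floor_le (z.re / δ)
  have a2 := Int.lt_floor_add_one (z.re / δ)
  have b1 := Int.floor_le (z.im / δ)
  have b2 := Int.lt_floor_add_one (z.im / δ)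
  have k1 : |(x.1 : ℝ) - z.re / δ| ≤ s / δ := by
    rw [le_div_iff₀ hδ, ← abs_of_pos hδ, ← abs_mul, abs_of_pos hδ]
    have e : ((x.1 : ℝ) - z.re / δ) * δ = (pv δ x).re - z.re := by
      show _ = δ * (x.1 : ℝ) - z.re
      field_simp
    rw [e]
    exact h1
  have k2 : |(x.2 : ℝ) - z.im / δ| ≤ s / δ := by
    rw [le_div_iff₀ hδ, ← abs_of_pos hδ, ← abs_mul, abs_of_pos hδ]
    have e : ((x.2 : ℝ) - z.im / δ) * δ = (pv δ x).im - z.im := by
      show _ = δ * (x.2 : ℝ) - z.im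
      field_simp
    rw [e]
    exact h2
  rw [abs_le] at k1 k2
  rw [mem_Bd]
  have g1 : ((⌊z.re / δ⌋ : ℤ) : ℝ) - m ≤ x.1 := by linarith [k1.1]
  have g2 : (x.1 : ℝ) ≤ ((⌊z.re / δ⌋ : ℤ) : ℝ) + m := by linarith [k1.2]
  have g3 : ((⌊z.im / δ⌋ : ℤ) : ℝ) - m ≤ x.2 := by linarith [k2.1]
  have g4 : (x.2 : ℝ) ≤ ((⌊z.im / δ⌋ : ℤ) : ℝ) + m := by linarith [k2.2]
  exact ⟨⟨by exact_mod_cast g1, by exact_mod_cast g2⟩, by exact_mod_cast g3, by exact_mod_cast g4⟩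

/-- a vertex in the box has a point near `z` -/
theorem near_pv {δ : ℝ} (hδ : 0 < δ) {z : ℂ} {x : Vtx} {m : ℕ}
    (h : x ∈ Bd (⌊z.re / δ⌋, ⌊z.im / δ⌋) m) : dist (pv δ x) z ≤ 2 * δ * m + 2 * δ := by
  rw [mem_Bd] at h
  obtain ⟨⟨h1, h2⟩, h3, h4⟩ := h
  have a1 := Int.floor_le (z.re / δ)
  have a2 := Int.lt_floor_add_one (z.re / δ)
  have b1 := Int.floor_le (z.im / δ)
  have b2 := Int.lt_floor_add_one (z.im / δ)
  simp only at h1 h2 h3 h4
  have g1 : ((⌊z.re / δ⌋ : ℤ) : ℝ) - m ≤ x.1 := by exact_mod_cast h1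
  have g2 : (x.1 : ℝ) ≤ ((⌊z.re / δ⌋ : ℤ) : ℝ) + m := by exact_mod_cast h2
  have g3 : ((⌊z.im / δ⌋ : ℤ) : ℝ) - m ≤ x.2 := by exact_mod_cast h3
  have g4 : (x.2 : ℝ) ≤ ((⌊z.im / δ⌋ : ℤ) : ℝ) + m := by exact_mod_cast h4
  have e1 : |(pv δ x).re - z.re| ≤ δ * (m + 1) := by
    have e : (pv δ x).re - z.re = δ * ((x.1 : ℝ) - z.re / δ) := by
      show δ * (x.1 : ℝ) - z.re = _
      field_simp
    rw [e, abs_mul, abs_of_pos hδ]
    refine mul_le_mul_of_nonneg_left ?_ hδ.le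
    rw [abs_le]
    constructor <;> linarith
  have e2 : |(pv δ x).im - z.im| ≤ δ * (m + 1) := by
    have e : (pv δ x).im - z.im = δ * ((x.2 : ℝ) - z.im / δ) := by
      show δ * (x.2 : ℝ) - z.im = _
      field_simp
    rw [e, abs_mul, abs_of_pos hδ]
    refine mul_le_mul_of_nonneg_left ?_ hδ.le
    rw [abs_le]
    constructor <;> linarith
  have := H984N.ML.dist_le_of e1 e2
  linarith

/-- the nodes with index at most `T` are on the curve before the time `t` -/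
theorem node_time {n : ℕ} (hn : 0 < n) {p : ℕ → ℂ} {t : unitInterval} {T k : ℕ} (hT : T < n)
    (h1 : (T : ℝ) ≤ t * n) (hk : k ≤ T) :
    ∃ s : unitInterval, s ≤ t ∧ H984N.pl n p s = p k := by
  have hn' : (0 : ℝ) < n := by exact_mod_cast hn
  have hkT : (k : ℝ) ≤ T := by exact_mod_cast hk
  have hTn : (T : ℝ) < n := by exact_mod_cast hT
  have hk0 : (0 : ℝ) ≤ k := Nat.cast_nonneg k
  have hk1 : (k : ℝ) / n ≤ 1 := by
    rw [div_le_one hn']
    linarith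
  have hk2 : 0 ≤ (k : ℝ) / n := by positivity
  obtain ⟨s0, hs0⟩ : ∃ s0 : unitInterval, (s0 : ℝ) = (k : ℝ) / n := ⟨⟨(k : ℝ) / n, hk2, hk1⟩, rfl⟩
  have e : (s0 : ℝ) * n = k := by
    rw [hs0]
    field_simp
  refine ⟨s0, ?_, ?_⟩
  · show (s0 : ℝ) ≤ (t : ℝ)
    rw [hs0, div_le_iff₀ hn']
    linarith
  · rw [H984N.pl_seg (N := n) (p := p) (k := k) (s := s0) (lt_of_le_of_lt hk hT) e.ge
      (by linarith), e]
    simp

/-- FR-HD -/
theorem t_HD : S_HD := by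
  intro hSF hLAT z r d δ ζ hδ hδr hd hζ hball n ω ρ hρ b1 b2 b4 hE
  obtain ⟨t, ⟨s, hst', h1⟩, h2, g, hg0, hg1, hgf⟩ := hE
  have hr : 0 < r := hδ.trans_le hδr
  have hd0 : 0 < d := by linarith
  have b3 := up_box hδ (by linarith : 64 * δ ≤ d) hball
  have hzim := im_ge hd0 hball
  have hctr := ctr_add δ hδ z
  have hst : ∀ k < n, dist ((δ : ℂ) * H984H.gam ω k) ((δ : ℂ) * H984H.gam ω (k + 1)) ≤ δ / 2 := by
    intro k _
    have h := H984H.gam_step ω k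
    rw [dist_eq_norm, ← mul_sub, norm_mul, Complex.norm_real, Real.norm_eq_abs, abs_of_pos hδ,
      ← dist_eq_norm]
    nlinarith
  rcases Nat.eq_zero_or_pos n with h0 | hNpos
  · exfalso
    rw [h0, H984N.pl_apply'] at h1 h2
    simp only [Finset.range_zero, Finset.sum_empty, add_zero] at h1 h2
    linarith
  obtain ⟨k0, hk0N, ⟨k1, k2⟩, hk⟩ := pl_close' hNpos hst s
  obtain ⟨T, hTN, ⟨T1, T2⟩, hT⟩ := pl_close' hNpos hst t
  have hnode : ∀ k ≤ T, ∀ u, ζ < dist (g u) ((δ : ℂ) * H984H.gam ω k) := by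
    intro k hk u
    obtain ⟨s', hs1, hs2⟩ := node_time (p := fun k => (δ : ℂ) * H984H.gam ω k) hNpos hTN T1 hk
    have := hgf s' hs1 u
    rw [hs2] at this
    exact this
  set f := H984N.pl n (fun k => (δ : ℂ) * H984H.gam ω k) with hf
  have hne : s ≠ t := by
    intro h
    rw [h] at h1
    linarith
  have hk0T : k0 ≤ T := idx_le hNpos hst' hne k1 T2
  obtain ⟨z', hz'⟩ : ∃ z' : ℂ, z' = z + (δ : ℂ) * Complex.I := ⟨_, rfl⟩
  rw [← hz'] at b1 b2 b3 b4 hctr ⊢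
  have hdp : ∀ k : ℕ, dist (H984N.pos δ (H984H.path ω k)) z' = dist ((δ : ℂ) * H984H.gam ω k) z := by
    intro k
    rw [hz', dist_pos]
    rfl
  have pk : dist (H984N.pos δ (H984H.path ω k0)) z' ≤ r + δ / 2 := by
    rw [hdp]
    have := dist_triangle_left ((δ : ℂ) * H984H.gam ω k0) z (f s)
    linarith
  have pT : d / 2 - δ / 2 ≤ dist (H984N.pos δ (H984H.path ω T)) z' := by
    rw [hdp]
    have := dist_triangle (f t) ((δ : ℂ) * H984H.gam ω T) z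
    linarith
  have p0 : d / 2 - δ / 2 ≤ dist (H984N.pos δ (H984H.path ω 0)) z' := by
    rw [hdp]
    have h5 := H984N.ML.le_dist_im ((δ : ℂ) * H984H.gam ω 0) z
    have h6 : ((δ : ℂ) * H984H.gam ω 0).im = δ * (1 / 4) := by
      have e : H984H.gam ω 0 = ⟨((0 : ℤ) : ℝ) + 1/4, ((0 : ℤ) : ℝ) + 1/4⟩ := rfl
      rw [Complex.im_ofReal_mul, e]
      simp
    rw [h6] at h5
    have h7 := neg_abs_le (δ * (1 / 4) - z.im)
    linarith
  have kk : 2 * δ * (⌊d / (8 * δ)⌋₊ : ℝ) ≤ d / 4 := by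
    have hk : (⌊d / (8 * δ)⌋₊ : ℝ) ≤ d / (8 * δ) := Nat.floor_le (by positivity)
    calc 2 * δ * (⌊d / (8 * δ)⌋₊ : ℝ) ≤ 2 * δ * (d / (8 * δ)) :=
          mul_le_mul_of_nonneg_left hk (by positivity)
      _ = d / 4 := by
          field_simp
          norm_num
  have far : ∀ {σ : St}, d / 2 - δ / 2 ≤ dist (H984N.pos δ σ) z' →
      σ.1 ∉ Bd (ctr δ z') ⌊d / (8 * δ)⌋₊ := by
    intro σ h hin
    have h5 := box_near hδ hin
    linarith
  obtain ⟨s1, _, _, _⟩ := sizes hδ hδr hd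
  have hρ1 : (1 : ℤ) ≤ ρ := by omega
  have hcp : ∀ k : ℕ, k ≤ n → k + 1 ≤ (H984H.bx ρ).len (H984H.cut ω ρ) ∧
      (H984H.bx ρ).walk (H984H.cut ω ρ) ((H984H.bx ρ).len (H984H.cut ω ρ) - 1 - k) =
        H984H.path ω k := by
    intro k hk
    apply H984H.couple hρ1 ω
    intro m hm
    have h1 := H984H.path_sd ω (Nat.zero_le m)
    have h2 : H984H.sd (H984H.path ω m).1 (0, 0) = H984H.sd (H984H.path ω 0).1 (H984H.path ω m).1 := by
      have : (H984H.path ω 0).1 = (0, 0) := rfl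
      rw [this]
      simp only [H984H.sd]
      rw [abs_sub_comm, abs_sub_comm (H984H.path ω m).1.2]
    rw [h2]
    omega
  obtain ⟨cT1, cT2⟩ := hcp T (by omega)
  obtain ⟨ck1, ck2⟩ := hcp k0 (by omega)
  obtain ⟨c01, c02⟩ := hcp 0 (by omega)
  set Ln := (H984H.bx ρ).len (H984H.cut ω ρ) with hLn
  obtain ⟨hl1, hl2⟩ := hLAT δ hδ
  -- the corridor
  have hreach := hl2 (Nr (toN (H984H.bx ρ)) (cz (H984H.cut ω ρ)) (Ln - 1 - T) (Ln - 1 - 0)) g (by
    intro u w hw hin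
    obtain ⟨q, hq1, hq2, hq3, hq4⟩ := hin
    rw [walk_eq] at hq3 hq4
    have hq : Ln - 1 - (Ln - 1 - q) = q := by omega
    obtain ⟨cq1, cq2⟩ := hcp (Ln - 1 - q) (by omega)
    rw [hq] at cq2
    rw [cq2] at hq3 hq4
    have h5 := pv_place hδ hq3 hq4
    have h6 := hnode (Ln - 1 - q) (by omega) u
    have h7 := dist_triangle_left (g u) ((δ : ℂ) * H984H.gam ω (Ln - 1 - q)) (pv δ w)
    have h8 : (δ : ℂ) * H984H.gam ω (Ln - 1 - q) = (δ : ℂ) * H984H.place (H984H.path ω (Ln - 1 - q)) :=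
      rfl
    rw [← h8] at h5
    linarith)
  have key := hSF (toN (H984H.bx ρ)) (cz (H984H.cut ω ρ)) (ok_toN (H984H.bx_ok hρ1))
    (cz_edges (H984H.Couple_cut_sub ω ρ)) (ctr δ z') (⌈r / δ⌉₊ + 3) ⌊d / (8 * δ)⌋₊ s1 b1 b2 b3 b4
    (Ln - 1 - T) (Ln - 1 - k0) (Ln - 1 - 0) (by omega) (by omega) (by rw [len_eq]; omega)
    (by rw [walk_eq, cT2]; exact far pT) (by rw [walk_eq, ck2]; exact near_box hδ pk)
    (by rw [walk_eq, c02]; exact far p0) (rd δ (g 0)) (rd δ (g 1))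
    (by
      rw [hctr]
      apply pv_near (s := r + δ) hδ
      · have h5 := hl1 (g 0)
        have h6 := dist_triangle (pv δ (rd δ (g 0))) (g 0) z
        linarith
      · have h5 : r / δ ≤ (⌈r / δ⌉₊ : ℝ) := Nat.le_ceil _
        have h6 : (r + δ) / δ = r / δ + 1 := by
          field_simp
        rw [h6]
        push_cast
        linarith)
    (by
      rw [hctr]
      intro hin
      have h5 := near_pv hδ hin
      have h6 := hl1 (g 1)
      have h7 := dist_triangle_left (g 1) z (pv δ (rd δ (g 1)))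
      linarith)
    hreach
  rw [A3v_cz (by omega), A3d_cz (by omega)] at key
  exact key

end Pool.Agent.W549.FR
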